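import Pool.Agent.Y816.PD.UniJ

set_option autoImplicit false

/-!
# Almost primes `m > x` with restricted digits and `√m - √x < x ^ (1 / D - 1 / 2)`

For every `D`, every large `x` and every admissible `H` the `m > x` for which all `m + h`, `h ∈ H`, are integers
`> x` whose square root is smaller than `√x + x ^ (1 / D - 1 / 2)`, and whose `i`-th digit in base `b` belongs to
an arbitrary set `A i` for all `i < K`, are considered; `K` is the integer part of `log_b ((⌊x ^ (1 / D)⌋ + 1) / 3)`.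
-/

namespace Pool.Agent.Results.MP_3998cf_nt.RestrictedDigits

open Finset Filter
open Pool.Agent.Y816.PD (NA DC AT PT)

/-- The integers `m > x` with `√m - √x < x ^ (1 / D - 1 / 2)`. -/
def Near (D x : ℕ) : Set ℕ := {m | x < m ∧ √(m : ℝ) - √(x : ℝ) < (x : ℝ) ^ (1 / (D : ℝ) - 1 / 2)}

lemma near_iff {D x m : ℕ} (hx : 1 ≤ x) : m ∈ Near D x ↔ x < m ∧
    (m : ℝ) < (√(x : ℝ) + (x : ℝ) ^ (1 / (D : ℝ) - 1 / 2)) ^ 2 := by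
  have hx0 : (0 : ℝ) < x := by exact_mod_cast hx
  have h1 : 0 < √(x : ℝ) + (x : ℝ) ^ (1 / (D : ℝ) - 1 / 2) := by positivity
  unfold Near
  rw [Set.mem_setOf_eq, ← Real.sqrt_lt' h1, sub_lt_iff_lt_add, add_comm]

lemma sq_expand {D x : ℕ} (hx : 1 ≤ x) : (√(x : ℝ) + (x : ℝ) ^ (1 / (D : ℝ) - 1 / 2)) ^ 2 =
    x + 2 * (x : ℝ) ^ (1 / (D : ℝ)) + (x : ℝ) ^ (2 / (D : ℝ) - 1) := by
  have hx0 : (0 : ℝ) < x := by exact_mod_cast hx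
  have h1 : √(x : ℝ) * (x : ℝ) ^ (1 / (D : ℝ) - 1 / 2) = (x : ℝ) ^ (1 / (D : ℝ)) := by
    rw [Real.sqrt_eq_rpow, ← Real.rpow_add hx0]
    congr 1
    ring
  have h2 : ((x : ℝ) ^ (1 / (D : ℝ) - 1 / 2)) ^ 2 = (x : ℝ) ^ (2 / (D : ℝ) - 1) := by
    rw [← Real.rpow_natCast, ← Real.rpow_mul hx0.le]
    congr 1
    push_cast
    ring
  have h3 := Real.sq_sqrt hx0.le
  calc (√(x : ℝ) + (x : ℝ) ^ (1 / (D : ℝ) - 1 / 2)) ^ 2 = √(x : ℝ) ^ 2 +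
        2 * (√(x : ℝ) * (x : ℝ) ^ (1 / (D : ℝ) - 1 / 2)) + ((x : ℝ) ^ (1 / (D : ℝ) - 1 / 2)) ^ 2 := by ring
    _ = _ := by rw [h1, h2, h3]

/-- **Almost prime tuples with restricted digits and very small differences of square roots.** -/
theorem result (D : ℕ) (hD : 1 ≤ D) (H : Finset ℕ) (hH : ∀ p : ℕ, p.Prime → ∃ m : ℕ, ∀ h ∈ H, ¬ p ∣ m + h)
    (k : ℕ) (hk : H.card = k) (hk1 : 1 ≤ k) :
    ∃ c : ℝ, 0 < c ∧ ∃ r₀ : ℕ, 2 ≤ r₀ ∧ ∀ r : ℕ, r₀ ≤ r → ∀ b : ℕ, 2 ≤ b → ∃ κ C : ℝ, 0 < κ ∧ 0 < C ∧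
      ∀ᶠ x : ℕ in atTop, ∀ K : ℕ, K = Nat.log b ((⌊(x : ℝ) ^ (1 / (D : ℝ))⌋₊ + 1) / 3) →
        ∀ A : ℕ → Finset ℕ, (∀ i < K, A i ⊆ range b) → (b : ℝ) ^ K ≤ Real.exp (c * K) * NA K A →
        ((∃ d ∈ A 0, ∀ h ∈ H, (d + h).Coprime b) →
          κ * NA K A / (K : ℝ) ^ k ≤ DC b K A (AT H (Near D x) r (b ^ K))) ∧
        (DC b K A (PT H (Near D x)) : ℝ) ≤ C * NA K A / (K : ℝ) ^ k := by
  have hD0 : (0 : ℝ) < D := by exact_mod_cast hD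
  have hinv : (0 : ℝ) < 1 / (D : ℝ) := by positivity
  have hD1 : (1 : ℝ) / D ≤ 1 := by
    rw [div_le_one hD0]
    exact_mod_cast hD
  apply Pool.Agent.Y816.PD.uni_fam atTop (Near D) (fun x => x) (fun x : ℕ => ⌊(x : ℝ) ^ (1 / (D : ℝ))⌋₊ + 1)
    (fun x : ℕ => 3 * (⌊(x : ℝ) ^ (1 / (D : ℝ))⌋₊ + 1)) D 3 _ _ _ _ _ H hH k hk hk1
  · have h1 : Tendsto (fun x : ℕ => (x : ℝ) ^ (1 / (D : ℝ))) atTop atTop :=
      (tendsto_rpow_atTop hinv).comp tendsto_natCast_atTop_atTop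
    have h2 : Tendsto (fun x : ℕ => ⌊(x : ℝ) ^ (1 / (D : ℝ))⌋₊) atTop atTop :=
      tendsto_nat_floor_atTop.comp h1
    exact tendsto_atTop_mono (fun n => Nat.le_succ _) h2
  · exact Eventually.of_forall fun n => ⟨by omega, le_rfl⟩
  · refine Eventually.of_forall fun n => ?_
    have h1 : (n : ℝ) ^ (1 / (D : ℝ)) < (⌊(n : ℝ) ^ (1 / (D : ℝ))⌋₊ : ℝ) + 1 := Nat.lt_floor_add_one _
    have h2 : (n : ℝ) = ((n : ℝ) ^ (1 / (D : ℝ))) ^ D := by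
      rw [← Real.rpow_natCast, ← Real.rpow_mul (Nat.cast_nonneg n), one_div, inv_mul_cancel₀ hD0.ne',
        Real.rpow_one]
    have h4 : 0 ≤ (n : ℝ) ^ (1 / (D : ℝ)) := by positivity
    have h3 : (n : ℝ) ≤ ((⌊(n : ℝ) ^ (1 / (D : ℝ))⌋₊ : ℝ) + 1) ^ D :=
      h2.trans_le (pow_le_pow_left₀ h4 h1.le D)
    exact_mod_cast h3
  · filter_upwards [eventually_ge_atTop 1] with n hn m h1 h2
    rw [near_iff hn, sq_expand hn]
    refine ⟨h1, ?_⟩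
    have hn0 : (0 : ℝ) < n := by exact_mod_cast hn
    have h3 : (m : ℝ) ≤ n + ⌊(n : ℝ) ^ (1 / (D : ℝ))⌋₊ := by
      exact_mod_cast (by omega : m ≤ n + ⌊(n : ℝ) ^ (1 / (D : ℝ))⌋₊)
    have h4 : (⌊(n : ℝ) ^ (1 / (D : ℝ))⌋₊ : ℝ) ≤ (n : ℝ) ^ (1 / (D : ℝ)) := Nat.floor_le (by positivity)
    have h5 : 0 < (n : ℝ) ^ (1 / (D : ℝ)) := by positivity
    have h6 : 0 < (n : ℝ) ^ (2 / (D : ℝ) - 1) := by positivity
    linarith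
  · filter_upwards [eventually_ge_atTop 1] with n hn m hm
    rw [near_iff hn, sq_expand hn] at hm
    refine ⟨hm.1, ?_⟩
    have hn1 : (1 : ℝ) ≤ n := by exact_mod_cast hn
    have h4 : (n : ℝ) ^ (1 / (D : ℝ)) < (⌊(n : ℝ) ^ (1 / (D : ℝ))⌋₊ : ℝ) + 1 := Nat.lt_floor_add_one _
    have h6 : (n : ℝ) ^ (2 / (D : ℝ) - 1) ≤ (n : ℝ) ^ (1 / (D : ℝ)) := by
      apply Real.rpow_le_rpow_of_exponent_le hn1
      have : (2 : ℝ) / D = 2 * (1 / D) := by ring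
      rw [this]
      linarith
    have h7 : (m : ℝ) < ((n + 3 * (⌊(n : ℝ) ^ (1 / (D : ℝ))⌋₊ + 1) : ℕ) : ℝ) := by
      push_cast
      linarith [hm.2]
    exact_mod_cast h7

end Pool.Agent.Results.MP_3998cf_nt.RestrictedDigits
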