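import Pool.Agent.Y677.KU.LinIcc

set_option autoImplicit false

/-!
# Differences of square roots of consecutive numbers with at most three prime factors in a class

Let `P q a r` be the set of the `m ≡ a (mod q)` with at most `r` prime factors, all of them larger than
`m ^ (1 / (3 r + 1))` (all primes `≡ a (mod q)` are elements). For `r ≥ 3` the differences of the square
roots of consecutive elements tend to `0`, at the rate `q x ^ (4 / (3 r + 1) - 1 / 2 + ε)`, uniformly in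
the moduli `q` and the reduced classes `a`; the number of the elements whose square root is in
`(√x, √x + δ]` has the expected order of magnitude, and there are narrow progressions of such elements,
and of the elements of all dense subsets.
-/

namespace Pool.Agent.Results.MP_3998cf_nt.SquareRootsInClasses

open Finset Filter

/-- The integers whose square root is in `(√x, √x + δ]`. -/
def Near (x : ℕ) (δ : ℝ) : Set ℕ := {m | x < m ∧ √(m : ℝ) ≤ √(x : ℝ) + δ}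

/-- The `m ≡ a (mod q)` all of whose prime factors are larger than `m ^ (1 / s)`. -/
def R (q a s : ℕ) : Set ℕ :=
  {m | m ≡ a [MOD q] ∧ ∀ p : ℕ, p.Prime → p ∣ m → (m : ℝ) ^ (1 / (s : ℝ)) < (p : ℝ)}

/-- The `m ≡ a (mod q)` with at most `r` prime factors, all larger than `m ^ (1 / (3 r + 1))`. -/
def P (q a r : ℕ) : Set ℕ := {m | m ∈ R q a (3 * r + 1) ∧ m.primeFactorsList.length ≤ r}

/-- `m` is a term of an `l`-term arithmetic progression in `A` with difference at most `D`. -/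
def InP (A : Set ℕ) (l : ℕ) (D : ℝ) (m : ℕ) : Prop :=
  ∃ u d : ℕ, 1 ≤ d ∧ (d : ℝ) ≤ D ∧ (∀ i < l, u + i * d ∈ A) ∧ ∃ i < l, m = u + i * d

/-- the interval `(x, x + y]` inside the set of the problem -/
theorem near_lower (x : ℕ) (δ : ℝ) (hδ : 0 ≤ δ) (m : ℕ) (h1 : x < m) (h2 : m ≤ x + ⌊2 * δ * √(x : ℝ)⌋₊) :
    m ∈ Near x δ := by
  refine ⟨h1, ?_⟩
  have hs : 0 ≤ √(x : ℝ) := Real.sqrt_nonneg _
  have hs2 : √(x : ℝ) ^ 2 = x := Real.sq_sqrt (Nat.cast_nonneg x)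
  have h3 : ((⌊2 * δ * √(x : ℝ)⌋₊ : ℕ) : ℝ) ≤ 2 * δ * √(x : ℝ) := Nat.floor_le (by positivity)
  have h4 : (m : ℝ) ≤ x + ((⌊2 * δ * √(x : ℝ)⌋₊ : ℕ) : ℝ) := by exact_mod_cast h2
  rw [Real.sqrt_le_left (by positivity)]
  nlinarith

/-- the set of the problem inside a closed interval -/
theorem near_upper (x : ℕ) (δ : ℝ) (hδ : 0 ≤ δ) (m : ℕ) (h : m ∈ Near x δ) :
    x < m ∧ m ≤ x + ⌊2 * δ * √(x : ℝ) + δ ^ 2⌋₊ := by
  obtain ⟨h1, h2⟩ := h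
  refine ⟨h1, ?_⟩
  have hs : 0 ≤ √(x : ℝ) := Real.sqrt_nonneg _
  have hs2 : √(x : ℝ) ^ 2 = x := Real.sq_sqrt (Nat.cast_nonneg x)
  rw [Real.sqrt_le_left (by positivity)] at h2
  have h3 : ((m - x : ℕ) : ℝ) ≤ 2 * δ * √(x : ℝ) + δ ^ 2 := by
    rw [Nat.cast_sub h1.le]
    nlinarith
  have h4 := Nat.le_floor h3
  omega

/-- **Differences of square roots of consecutive numbers with at most three prime factors in a
residue class.** -/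
theorem result :
    (∀ q a s r p : ℕ, 2 ≤ s → 1 ≤ r → p.Prime → p ≡ a [MOD q] → p ∈ R q a s ∧ p ∈ P q a r) ∧
    (∀ (r : ℕ) (θ : ℝ), 3 ≤ r → 4 / (3 * r + 1) < θ → θ ≤ 1 / 2 →
      (∃ κ : ℝ, 0 < κ ∧ ∀ᶠ x : ℕ in atTop, ∀ q a : ℕ, 1 ≤ q → Nat.Coprime a q →
        ∀ δ : ℝ, q * (x : ℝ) ^ (θ - 1 / 2) ≤ δ → δ ≤ 1 →
        κ * δ * √(x : ℝ) / (Nat.totient q * Real.log x) ≤ (P q a r ∩ Near x δ).ncard) ∧
      (∀ᶠ x : ℕ in atTop, ∀ q a : ℕ, 1 ≤ q → Nat.Coprime a q → q * (x : ℝ) ^ (θ - 1 / 2) ≤ 1 →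
        ∃ m : ℕ, m ∈ P q a r ∧ x < m ∧ √(m : ℝ) - √(x : ℝ) ≤ q * (x : ℝ) ^ (θ - 1 / 2)) ∧
      ∀ l : ℕ, ∃ B : ℕ, ∀ᶠ x : ℕ in atTop, ∀ q a : ℕ, 1 ≤ q → Nat.Coprime a q →
        ∀ δ : ℝ, q * (x : ℝ) ^ (θ - 1 / 2) ≤ δ → δ ≤ 1 →
        ∃ u d : ℕ, 1 ≤ d ∧ (d : ℝ) ≤ q * Real.log x ^ B ∧ ∀ i < l, u + i * d ∈ P q a r ∩ Near x δ) ∧
    ∀ (s : ℕ) (θ : ℝ), 1 ≤ s → 0 < θ → θ ≤ 1 / 2 → ∀ l : ℕ, 2 ≤ l → ∀ ε : ℝ, 0 < ε → ∃ B : ℕ,
      ∀ᶠ x : ℕ in atTop, ∀ q a : ℕ, 1 ≤ q → Nat.Coprime a q →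
      ∀ δ : ℝ, q * (x : ℝ) ^ (θ - 1 / 2) ≤ δ → δ ≤ 1 → ∀ T : Set ℕ, T ⊆ R q a s ∩ Near x δ →
        (({m | m ∈ T ∧ ¬ InP T l (q * Real.log x ^ B) m}.ncard : ℕ) : ℝ) ≤
          ε * δ * √(x : ℝ) / (Nat.totient q * Real.log x) := by
  -- the size of the intervals
  have hsize : ∀ θ : ℝ, 0 < θ → ∀ᶠ x : ℕ in atTop, ∀ q : ℕ, 1 ≤ q →
      ∀ δ : ℝ, q * (x : ℝ) ^ (θ - 1 / 2) ≤ δ → δ ≤ 1 → 0 < δ ∧ 1 ≤ Real.log x ∧
        (q : ℝ) * (x : ℝ) ^ θ ≤ ((⌊2 * δ * √(x : ℝ)⌋₊ : ℕ) : ℝ) ∧ ⌊2 * δ * √(x : ℝ)⌋₊ ≤ x ∧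
        δ * √(x : ℝ) ≤ ((⌊2 * δ * √(x : ℝ)⌋₊ : ℕ) : ℝ) ∧
        (q : ℝ) * (x : ℝ) ^ θ ≤ ((⌊2 * δ * √(x : ℝ) + δ ^ 2⌋₊ : ℕ) : ℝ) ∧
        ⌊2 * δ * √(x : ℝ) + δ ^ 2⌋₊ ≤ x ∧
        ((⌊2 * δ * √(x : ℝ) + δ ^ 2⌋₊ : ℕ) : ℝ) ≤ 4 * (δ * √(x : ℝ)) := by
    intro θ hθ
    have hlog := Real.tendsto_log_atTop.comp (tendsto_natCast_atTop_atTop (R := ℝ))
    filter_upwards [eventually_ge_atTop 9, hlog.eventually_ge_atTop 1] with x hx hl q hq δ h1 h2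
    simp only [Function.comp] at hl
    have hx9 : (9 : ℝ) ≤ x := by exact_mod_cast hx
    have hx0 : (0 : ℝ) < x := by linarith
    have hq1 : (1 : ℝ) ≤ q := by exact_mod_cast hq
    have hs3 : 3 ≤ √(x : ℝ) := by
      rw [Real.le_sqrt' (by norm_num)]
      linarith
    have hs2 : √(x : ℝ) ^ 2 = x := Real.sq_sqrt hx0.le
    have hpos : 0 < (x : ℝ) ^ (θ - 1 / 2) := Real.rpow_pos_of_pos hx0 _
    have hδ0 : 0 < δ := lt_of_lt_of_le (by positivity) h1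
    have h3 : (q : ℝ) * (x : ℝ) ^ θ ≤ δ * √(x : ℝ) := by
      calc (q : ℝ) * (x : ℝ) ^ θ = (q * (x : ℝ) ^ (θ - 1 / 2)) * √(x : ℝ) := by
            rw [Real.sqrt_eq_rpow, mul_assoc, ← Real.rpow_add hx0, sub_add_cancel]
        _ ≤ δ * √(x : ℝ) := mul_le_mul_of_nonneg_right h1 (by linarith)
    have h4 : 1 ≤ (x : ℝ) ^ θ := Real.one_le_rpow (by linarith) hθ.le
    have h5 : 1 ≤ (q : ℝ) * (x : ℝ) ^ θ := by nlinarith
    have h6 : 2 * δ * √(x : ℝ) < ((⌊2 * δ * √(x : ℝ)⌋₊ : ℕ) : ℝ) + 1 := Nat.lt_floor_add_one _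
    have h7 : ((⌊2 * δ * √(x : ℝ)⌋₊ : ℕ) : ℝ) ≤ 2 * δ * √(x : ℝ) := Nat.floor_le (by positivity)
    have h8 : ((⌊2 * δ * √(x : ℝ) + δ ^ 2⌋₊ : ℕ) : ℝ) ≤ 2 * δ * √(x : ℝ) + δ ^ 2 :=
      Nat.floor_le (by positivity)
    have h9 : ((⌊2 * δ * √(x : ℝ)⌋₊ : ℕ) : ℝ) ≤ ((⌊2 * δ * √(x : ℝ) + δ ^ 2⌋₊ : ℕ) : ℝ) := by
      apply Nat.cast_le.2
      apply Nat.floor_le_floor
      nlinarith [sq_nonneg δ]
    have h10 : δ * √(x : ℝ) ≤ √(x : ℝ) := by nlinarith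
    have h11 : δ ^ 2 ≤ 1 := by nlinarith
    refine ⟨hδ0, hl, by linarith, ?_, by linarith, by linarith, ?_, by nlinarith⟩
    · have : ((⌊2 * δ * √(x : ℝ)⌋₊ : ℕ) : ℝ) ≤ x := by nlinarith
      exact_mod_cast this
    · have : ((⌊2 * δ * √(x : ℝ) + δ ^ 2⌋₊ : ℕ) : ℝ) ≤ x := by nlinarith
      exact_mod_cast this
  refine ⟨fun q a s r p hs hr hp hpa => ⟨Pool.Agent.Y677.KU.prime_mem q a s p hs hp hpa,
    Pool.Agent.Y677.KU.prime_mem_P q a r p hr hp hpa⟩, fun r θ hr h1 h2 => ?_,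
    fun s θ hs hθ h2 l hl ε hε => ?_⟩
  · have hθ0 : 0 < θ := lt_trans (by positivity) h1
    have hcount : ∃ κ : ℝ, 0 < κ ∧ ∀ᶠ x : ℕ in atTop, ∀ q a : ℕ, 1 ≤ q → Nat.Coprime a q →
        ∀ δ : ℝ, q * (x : ℝ) ^ (θ - 1 / 2) ≤ δ → δ ≤ 1 →
        κ * δ * √(x : ℝ) / (Nat.totient q * Real.log x) ≤ (P q a r ∩ Near x δ).ncard := by
      obtain ⟨κ, hκ, h⟩ := Pool.Agent.Y677.KU.pl_lower r θ (by omega) h1 (by linarith)
      refine ⟨κ, hκ, ?_⟩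
      filter_upwards [h, hsize θ hθ0] with x hx hsz q a hq ha δ h3 h4
      obtain ⟨g0, g1, g2, g3, g4, g5, g6, g7⟩ := hsz q hq δ h3 h4
      have hφ0 : (0 : ℝ) < Nat.totient q := by exact_mod_cast Nat.totient_pos.2 (by omega)
      refine le_trans ?_ ((hx q a _ hq ha g2 g3).trans (Nat.cast_le.2 ?_))
      · apply div_le_div_of_nonneg_right _ (by positivity)
        rw [mul_assoc]
        exact mul_le_mul_of_nonneg_left g4 hκ.le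
      · classical
        unfold Pool.Agent.TH977.PW.N
        rw [← Set.ncard_coe_finset]
        apply Set.ncard_le_ncard
        · intro m hm
          rw [mem_coe, mem_filter, mem_Ioc] at hm
          exact ⟨hm.2, near_lower x δ g0.le m hm.1.1 hm.1.2⟩
        · apply (Set.finite_Icc 0 (x + ⌊2 * δ * √(x : ℝ) + δ ^ 2⌋₊)).subset
          rintro m ⟨_, hm⟩
          exact ⟨Nat.zero_le _, (near_upper x δ g0.le m hm).2⟩
    refine ⟨hcount, ?_, fun l => ?_⟩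
    · obtain ⟨κ, hκ, h⟩ := hcount
      filter_upwards [h, hsize θ hθ0, eventually_ge_atTop 1] with x hx hsz hx1 q a hq ha h3
      obtain ⟨g0, g1, g2, g3, g4, g5, g6, g7⟩ := hsz q hq _ le_rfl h3
      have hφ0 : (0 : ℝ) < Nat.totient q := by exact_mod_cast Nat.totient_pos.2 (by omega)
      have hx0 : (0 : ℝ) < x := by exact_mod_cast hx1
      have h4 := hx q a hq ha _ le_rfl h3
      have h5 : 0 < κ * (q * (x : ℝ) ^ (θ - 1 / 2)) * √(x : ℝ) / (Nat.totient q * Real.log x) := by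
        have : 0 < √(x : ℝ) := Real.sqrt_pos.2 hx0
        positivity
      have h6 : 0 < (P q a r ∩ Near x (q * (x : ℝ) ^ (θ - 1 / 2))).ncard := by
        exact_mod_cast h5.trans_le h4
      obtain ⟨m, hm1, hm2⟩ := Set.nonempty_of_ncard_ne_zero h6.ne'
      exact ⟨m, hm1, hm2.1, by linarith [hm2.2]⟩
    · obtain ⟨B, h⟩ := Pool.Agent.Y677.KU.pl_exists r θ (by omega) h1 (by linarith) l
      refine ⟨B, ?_⟩
      filter_upwards [h, hsize θ hθ0] with x hx hsz q a hq ha δ h3 h4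
      obtain ⟨g0, g1, g2, g3, g4, g5, g6, g7⟩ := hsz q hq δ h3 h4
      obtain ⟨u, d, e1, e2, e3⟩ := hx q a _ hq ha g2 g3
      refine ⟨u, d, e1, e2, fun i hi => ?_⟩
      obtain ⟨e4, e5, e6⟩ := e3 i hi
      exact ⟨e4, near_lower x δ g0.le _ e5 e6⟩
  · obtain ⟨B, h⟩ := Pool.Agent.Y677.KU.icc_hered s hs θ hθ l hl (ε / 4) (by positivity)
    refine ⟨B, ?_⟩
    filter_upwards [h, hsize θ hθ] with x hx hsz q a hq ha δ h3 h4 T hT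
    obtain ⟨g0, g1, g2, g3, g4, g5, g6, g7⟩ := hsz q hq δ h3 h4
    have hφ0 : (0 : ℝ) < Nat.totient q := by exact_mod_cast Nat.totient_pos.2 (by omega)
    refine (hx q a _ hq ha g5 g6 T fun m hm => ?_).trans ?_
    · obtain ⟨e1, e2⟩ := near_upper x δ g0.le m (hT hm).2
      exact ⟨(hT hm).1, e1.le, e2⟩
    · apply div_le_div_of_nonneg_right _ (by positivity)
      calc ε / 4 * ((⌊2 * δ * √(x : ℝ) + δ ^ 2⌋₊ : ℕ) : ℝ) ≤ ε / 4 * (4 * (δ * √(x : ℝ))) :=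
            mul_le_mul_of_nonneg_left g7 (by positivity)
        _ = ε * δ * √(x : ℝ) := by ring

end Pool.Agent.Results.MP_3998cf_nt.SquareRootsInClasses
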